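import Pool.Agent.Y770.EH.Main

/-!
# The oscillation of `log L` on the edge line, for all motives and all unitary twists

`M` is a Chow motive over a number field `K`, for example over `K = ℚ`: a direct factor of a smooth
projective variety `X` (up to a Tate twist, which shifts `s` by an integer), so that the eigenvalues
of Frobenius on `Hⁱ(M)` are some of the eigenvalues of Frobenius on the cohomology of `X` in one
degree.  The Euler product `L(Hⁱ(M) ⊗ ψ, s)` converges for `Re s > i/2 + 1`, and a continuation to any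
point of the edge of this half-plane is not known in general.  The theorem bounds the oscillation of
the boundary values of `log L` on intervals of the edge line, uniformly in the motive, the twist,
the place and the length of the interval.

`IsFrobenius`, `edgePoint` and `angle` are defined in `Pool/Agent/TH958/BV/Defs.lean`.
-/

set_option autoImplicit false

namespace Pool.Agent.Results.MP_148101_nt.EdgeOscillation

open NumberField IsDedekindDomain MeasureTheory Filter Topology Pool.Agent.TH958.BV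

/-- `α_1, …, α_N` are some of the eigenvalues of the geometric Frobenius at the prime `v` of `K` on
`Hⁱ(X)`, each taken at most as often as it occurs: the eigenvalues on a direct factor of `Hⁱ(X)`. -/
def IsPiece {K : Type} [Field K] [NumberField K] {n : ℕ} (X : Set (MvPolynomial (Fin n) (𝓞 K)))
    (d i : ℕ) (v : HeightOneSpectrum (𝓞 K)) {N : ℕ} (α : Fin N → ℂ) : Prop :=
  ∃ (B : ℕ) (β : Fin B → ℂ) (e : Fin N ↪ Fin B), IsFrobenius X d i v β ∧ ∀ j, α j = β (e j)

open Classical in
/-- `log L_S(Hⁱ(M) ⊗ ψ, s)`, the sum over the primes `v ∉ S` of `K` and all `j` of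
`-log(1 - ψ(v) α_{v,j} Nv^{-s})`, where `α_{v,j}` are the eigenvalues of Frobenius on `Hⁱ(M)`. -/
noncomputable def logL {K : Type} [Field K] [NumberField K] {N : ℕ}
    (ψ : HeightOneSpectrum (𝓞 K) → ℂ) (S : Set (HeightOneSpectrum (𝓞 K)))
    (α : HeightOneSpectrum (𝓞 K) → Fin N → ℂ) (s : ℂ) : ℂ :=
  ∑' v : HeightOneSpectrum (𝓞 K), if v ∈ S then 0 else
    ∑ j, -Complex.log (1 - ψ v * α v j * (Ideal.absNorm v.asIdeal : ℂ) ^ (-s))

/-- **Oscillation on the edge line.**  Let `K` be a number field, `S` a set of primes of `K`, and for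
`v ∉ S` let `α_v` be `N` of the eigenvalues of Frobenius on `Hⁱ(X)`, for example the eigenvalues on a
Chow motive of rank `N` cut out of `Hⁱ(X)`.  Let `ψ` be any function on the primes of `K` with
`|ψ(v)| = 1`, for example a unitary Hecke character.  There is a measurable function `F` on the real
line such that

* for every real `τ` outside a set of Hausdorff dimension zero `log L_S(Hⁱ(M) ⊗ ψ, s)` tends to
  `F(τ)` as `s` tends to `s_τ = i/2 + 1 + iτ` in any angle in the half-plane `Re s > i/2 + 1`;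
* for all complex `c` with `|c| N [K : ℚ] < 1`, all real `t` and all `0 < h ≤ 1/2`, the mean value of
  `|exp (c (F(u) - log L_S(Hⁱ(M) ⊗ ψ, s_t + h)))|` over the interval `|u - t| ≤ h/2` is at most
  `1000 / (1 - |c| N [K : ℚ])`. -/
theorem result (K : Type) [Field K] [NumberField K] (n : ℕ) (X : Set (MvPolynomial (Fin n) (𝓞 K)))
    (d i N : ℕ) (S : Set (HeightOneSpectrum (𝓞 K))) (α : HeightOneSpectrum (𝓞 K) → Fin N → ℂ)
    (_ : ∀ v, v ∉ S → IsPiece X d i v (α v)) (ψ : HeightOneSpectrum (𝓞 K) → ℂ)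
    (_ : ∀ v, ‖ψ v‖ = 1) :
    ∃ F : ℝ → ℂ, AEMeasurable F ∧
      (∃ Z : Set ℝ, dimH Z = 0 ∧ ∀ τ : ℝ, τ ∉ Z → ∀ C : ℝ,
        Tendsto (logL ψ S α) (𝓝[angle i τ C] (edgePoint i τ)) (𝓝 (F τ))) ∧
      ∀ c : ℂ, ‖c‖ * (N * Module.finrank ℚ K) < 1 → ∀ t h : ℝ, 0 < h → h ≤ 1 / 2 →
        ∫⁻ u in Set.Icc (t - h / 2) (t + h / 2),
            ENNReal.ofReal ‖Complex.exp (c * (F u - logL ψ S α (edgePoint i t + h)))‖ ≤
          ENNReal.ofReal (h * (1000 / (1 - ‖c‖ * (N * Module.finrank ℚ K)))) := by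
  rename_i hα hψ
  have hα' : ∀ v, v ∉ S → ∀ j, ‖ψ v * α v j‖ =
      (Pool.Agent.TH339.MP.nm v : ℝ) ^ ((i : ℝ) / 2) := by
    intro v hv j
    obtain ⟨B, β, e, ⟨γ, h1, h2, h3⟩, h4⟩ := hα v hv
    rw [norm_mul, hψ, one_mul, h4]
    refine h2 i (β (e j)) ?_
    rw [h1]
    exact Multiset.mem_map_of_mem _ (Finset.mem_univ_val _)
  have hL : Pool.Agent.Y770.AP.logL (1 : DirichletCharacter ℂ 1) S (fun v j => ψ v * α v j) =
      logL ψ S α := by
    funext s
    unfold Pool.Agent.Y770.AP.logL logL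
    refine tsum_congr fun v => ?_
    split_ifs with hv
    · rfl
    · refine Finset.sum_congr rfl fun j _ => ?_
      have h2 : (1 : DirichletCharacter ℂ 1) ((Ideal.absNorm v.asIdeal : ℕ) : ZMod 1) = 1 :=
        MulChar.one_apply (isUnit_of_subsingleton _)
      rw [h2, one_mul]
  refine ⟨Pool.Agent.Y770.AP.FB (1 : DirichletCharacter ℂ 1) i S (fun v j => ψ v * α v j),
    (Pool.Agent.TH339.MP.boundary (Pool.Agent.Y770.AP.hbtw _ hα')).1, ?_, fun c hc t h hh hh2 => ?_⟩
  · have h1 := Pool.Agent.Y770.AP.FB_angle (1 : DirichletCharacter ℂ 1) hα'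
    rw [hL] at h1
    exact h1
  · have hc' : ‖c‖ * ((Module.finrank ℚ K : ℝ) * N) < 1 := by rwa [mul_comm (N : ℝ)] at hc
    have h1 := Pool.Agent.Y770.EH.FB_osc (1 : DirichletCharacter ℂ 1) hα' hh hh2 t c hc'
    rw [hL] at h1
    refine h1.trans (le_of_eq ?_)
    congr 1
    rw [mul_comm (N : ℝ)]
    ring

end Pool.Agent.Results.MP_148101_nt.EdgeOscillation
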