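import Pool.Agent.Y149.TL.Sub

/-!
# Tensor products of an arbitrary Chow motive with elliptic curves

Let `M` be any Chow motive over `ℚ` and `H = H^w(M)`, of dimension `N`.  Nothing is known about the
`L`-function `L(H, s)` to the left of the line `Re s = w/2 + 1` at the edge of the half plane of
absolute convergence, and even on this line its zeros and poles are not known.  Let `E_i`, `i ∈ ι`, be
elliptic curves over `ℚ`, for example all elliptic curves up to isogeny.  We prove that the
`L`-functions of the Chow motives `M ⊗ h¹(E_{l_0}) ⊗ ⋯ ⊗ h¹(E_{l_k})` behave on the whole line as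
conjectured for `100` percent of all tuples `l`: no pole and no zero.  (Poles are expected only if the
Galois representation has a one-dimensional constituent, and zeros never.)  The estimate has a power
saving, is uniform in `M` except for the dimension and contains all heights on the line at once.
Moreover there is ONE infinite set of elliptic curves which works for all motives: there are only
countably many Chow motives over `ℚ`, and the last part applies to the sequence of all of them.
Motives over number fields are included, by restriction of scalars.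

The definitions are in `Pool.Agent.Y149.TL.Defs`, `Pool.Agent.Y149.PK.Defs` and
`Pool.Agent.Y722.EP.Defs`.  The proof uses the one-sided orthogonality of the traces of Frobenius of
modular elliptic curves from `Pool.Agent.Y722.RS` (library of the team member helper722) and, for the
heights, `Pool.Agent.Y149.CR`.
-/

set_option autoImplicit false

namespace Pool.Agent.Results.MP_148101_nt.EllipticTensors

open Filter Topology Polynomial
open Pool.Agent.Y149.CM (LFun)
open Pool.Agent.Y149.PK (IsEllipticFamily tuples)
open Pool.Agent.Y149.TL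

/-- **Tensor products with elliptic curves.**  `H` is the cohomology of a motive over `ℚ`, of weight
`w` and rank `N` (only the eigenvalues of Frobenius at almost all primes matter), and `E_i`, `i ∈ ι`,
are modular elliptic curves over `ℚ`, at most `M` in every isogeny class.  For a tuple
`l = (l_0, …, l_k)` write `H_l = H ⊗ H¹(E_{l_0}) ⊗ ⋯ ⊗ H¹(E_{l_k})`, of weight `w + k + 1`.
1. For every finite set `J` of indices, every finite set `Θ` of heights and every `η > 0`, for all
small `ε > 0`, the sum over all `l ∈ J^{k+1}` and `τ ∈ Θ` of the squares of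
`log |L(H_l, (w+k+1)/2 + 1 + iτ + ε)| / log(1/ε)` is at most `2 M N² 4^k |J|^k + η`.
2. The sum of the squares of the orders `r(l, τ)` of `L(H_l, s)` at the points
`(w+k+1)/2 + 1 + iτ`, over any finite set `S` of pairs `(l, τ)`, `l ∈ J^{k+1}`, for which the order
exists, is at most `2 M N² 4^k |J|^k`.  In particular for all but `2 M N² 4^k |J|^k` of the
`|J|^{k+1}` tuples the function `L(H_l, s)` has no zero and no pole on the whole edge line, as far as
it continues to a neighbourhood of a point of the line.
3. If `ι` is infinite, then for every sequence `H_0, H_1, …` of motives there is an infinite subset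
`𝒥` of `ι` with finite subsets `F_0, F_1, …` such that for every `j`, every number `k` and every tuple
`l` of `k` different members of `𝒥`, not all of them in `F_j`, all orders of
`L(H_j ⊗ H¹(E_{l_0}) ⊗ ⋯ ⊗ H¹(E_{l_{k-1}}), s)` on the edge line are `0`. -/
theorem result (ι : Type) (M : ℕ) (a b : ι → ℤ) (hE : IsEllipticFamily M a b) :
    (∀ (H : Motive) (k : ℕ) (J : Finset ι) (Θ : Finset ℝ)
      (B : (Fin (k + 1) → ι) → Nat.Primes → ℂ[X]),
      (∀ l, (∀ i, l i ∈ J) → IsLFactor H a b (List.ofFn l) (B l)) → ∀ η : ℝ, 0 < η →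
      ∀ᶠ ε : ℝ in 𝓝[>] 0,
        (∀ l ∈ tuples J (k + 1), ∀ τ ∈ Θ, LFun (B l) (edge (H.weight + (k + 1 : ℕ)) τ + ε) ≠ 0) ∧
        ∑ l ∈ tuples J (k + 1), ∑ τ ∈ Θ, size (H.weight + (k + 1 : ℕ)) (B l) τ ε ^ 2 ≤
          2 * M * (H.rank : ℝ) ^ 2 * 4 ^ k * (J.card : ℝ) ^ k + η) ∧
    (∀ (H : Motive) (k : ℕ) (J : Finset ι) (B : (Fin (k + 1) → ι) → Nat.Primes → ℂ[X])
      (S : Finset ((Fin (k + 1) → ι) × ℝ)) (r : (Fin (k + 1) → ι) × ℝ → ℤ),
      (∀ x ∈ S, (∀ i, x.1 i ∈ J) ∧ IsLFactor H a b (List.ofFn x.1) (B x.1) ∧
        HasOrder (H.weight + (k + 1 : ℕ)) (B x.1) x.2 (r x)) →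
      ∑ x ∈ S, r x ^ 2 ≤ 2 * M * (H.rank : ℤ) ^ 2 * 4 ^ k * (J.card : ℤ) ^ k) ∧
    (Infinite ι → ∀ H : ℕ → Motive, ∃ 𝒥 : Set ι, 𝒥.Infinite ∧
      ∀ j, ∃ F : Finset ι, (∀ x ∈ F, x ∈ 𝒥) ∧
        ∀ (k : ℕ) (l : Fin k → ι), Function.Injective l → (∀ i, l i ∈ 𝒥) → (∃ i, l i ∉ F) →
        ∀ B : Nat.Primes → ℂ[X], IsLFactor (H j) a b (List.ofFn l) B →
        ∀ (τ : ℝ) (r : ℤ), HasOrder ((H j).weight + k) B τ r → r = 0) := by
  refine ⟨fun H k J Θ B hB η hη => tuple_mean hE H k J Θ hB hη,
    fun H k J B S r hS => tuple_order hE H k J S (fun x hx => (hS x hx).1)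
      (fun x hx => (hS x hx).2.1) (fun x hx => (hS x hx).2.2), fun hι H => ?_⟩
  exact universal hE H

end Pool.Agent.Results.MP_148101_nt.EllipticTensors
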