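import Pool.Agent.Y774.MD.Main

/-!
# The modulus of the boundary values decides about the continuation

`B` is a family of Euler factors over the primes of a number field `K` (for Chow motives over `ℚ` one
takes `K = ℚ`), tempered of weight `w` at almost all primes: for the `L`-function `L^i(M, s)` of a Chow
motive this is Deligne's theorem, `w = i`, for every choice of the primes `ℓ`; and part 1 says that it
holds for the Euler factors of `H^i(X)`, `X` a projective variety over `K`, defined by point counts.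
The functions `Λ_k` are Euler products over `ℚ` of automorphic type: this contains all cuspidal
automorphic `L`-functions of `GL_n` over all number fields (one multiplies the factors above `p`),
without the Ramanujan conjecture.

Nothing is known in general about `L(s)` on the left of the edge `Re s = w/2 + 1` of absolute
convergence.  The theorem says that the absolute values of its boundary values on a set of positive
upper density of the edge are enough to recognise it as a product of the `Λ_k`, and so to continue it.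
-/

set_option autoImplicit false

namespace Pool.Agent.Results.MP_148101_nt.ModulusCriterion

open NumberField IsDedekindDomain Filter Topology Polynomial MeasureTheory
open Pool.Agent.TH958.BV (IsEulerSystem localFactor LFun)
open Pool.Agent.Y774.MD (IsTempered IsEuler fac LQ eabs Concentrated Continues GoodAt GoodPlace)

/-- The Euler product `∏ P_p(p^{-s})⁻¹` over the prime numbers is of automorphic type: the polynomials
`P_p` are not `0`; for almost all `p` they are `1` at `0`, of degree at most `D`, without zeros in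
`|z| < p^{-θ}` for some `θ < 1/2`; and `∑_{p < x} |P_p'(0)|² log p ≤ C x`. -/
def AutomorphicType (P : ℕ → ℂ[X]) : Prop :=
  ∃ (D : ℕ) (θ C : ℝ) (E : Finset ℕ), IsEuler P D θ C E

/-- The limit `|L(w/2 + 1 + iτ)|` of `|L(w/2 + 1 + iτ + σ)|` for `σ → 0`, `σ > 0`. -/
noncomputable def edgeAbs {K : Type} [Field K] [NumberField K] (B : HeightOneSpectrum (𝓞 K) → ℂ[X])
    (w τ : ℝ) : ℝ :=
  limUnder (𝓝[>] (0 : ℝ)) fun σ : ℝ => ‖LFun B (((w / 2 + 1 : ℝ) : ℂ) + τ * Complex.I + σ)‖

/-- **Modulus criterion.**  Let `L(s)` be an Euler product over the primes of a number field `K`,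
tempered of weight `w`, for instance `L^i(M, s)` for a Chow motive `M` over `K = ℚ` and `w = i`, and let
`Λ_k(s)` be finitely many Euler products of automorphic type, `m_k` integers and `t_k` real numbers.
1. The Euler factors of `L(H^i(X), s)` are tempered of weight `i`.
2. For almost all real `τ` the radial limits `|L(w/2 + 1 + iτ)|` and `|Λ_k(1 + iτ)|` exist and are
   positive.
3. Suppose that `f(τ) = log |L(w/2 + 1 + iτ)| - ∑ m_k log |Λ_k(1 + i(τ + t_k))|` is concentrated, for
   example constant on a set of positive upper density.  Then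
   * `L_q(w/2 + s) = ∏ Λ_{k,q}(s + i t_k)^{m_k}` for the Euler factors at all good primes `q`;
   * if the `Λ_k` have meromorphic continuations to the plane, then `L(s)` has one;
   * if all primes are good, then `L(w/2 + s) = ∏ Λ_k(s + i t_k)^{m_k}`. -/
theorem result (K : Type) [Field K] [NumberField K] :
    (∀ (n d i N : ℕ) (X : Set (MvPolynomial (Fin n) (𝓞 K))) (B : HeightOneSpectrum (𝓞 K) → ℂ[X]),
      i ≤ 2 * d → IsEulerSystem X d i N B → IsTempered B (i : ℝ) N) ∧
    ∀ (w : ℝ) (N : ℕ) (B : HeightOneSpectrum (𝓞 K) → ℂ[X]), IsTempered B w N →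
      ∀ (κ : Type) [Fintype κ] (P : κ → ℕ → ℂ[X]), (∀ k, AutomorphicType (P k)) →
      (∀ᵐ τ : ℝ, (0 < edgeAbs B w τ ∧
        Tendsto (fun σ : ℝ => ‖LFun B (((w / 2 + 1 : ℝ) : ℂ) + τ * Complex.I + σ)‖) (𝓝[>] 0)
          (𝓝 (edgeAbs B w τ))) ∧
        ∀ k, 0 < eabs (P k) τ ∧
          Tendsto (fun σ : ℝ => ‖LQ (P k) (1 + σ + τ * Complex.I)‖) (𝓝[>] 0) (𝓝 (eabs (P k) τ))) ∧
      ∀ (m : κ → ℤ) (t : κ → ℝ),
        Concentrated (fun τ => Real.log (edgeAbs B w τ) -
          ∑ k, m k * Real.log (eabs (P k) (τ + t k))) →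
        (∀ q : ℕ, q.Prime → (∀ v : HeightOneSpectrum (𝓞 K), (q : 𝓞 K) ∈ v.asIdeal →
          GoodPlace B w v) → (∀ k, GoodAt (P k q) q) → ∀ s : ℂ, 1 ≤ s.re →
          ∏ᶠ v ∈ {v : HeightOneSpectrum (𝓞 K) | (q : 𝓞 K) ∈ v.asIdeal},
            localFactor B v (((w / 2 : ℝ) : ℂ) + s) =
            ∏ k, fac (P k) q (s + t k * Complex.I) ^ m k) ∧
        ((∀ k, Continues (LQ (P k)) 1) → Continues (LFun B) (w / 2 + 1)) ∧
        ((∀ v, GoodPlace B w v) → (∀ k, ∀ q : ℕ, q.Prime → GoodAt (P k q) q) → ∀ s : ℂ, 1 < s.re →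
          LFun B (((w / 2 : ℝ) : ℂ) + s) = ∏ k, LQ (P k) (s + t k * Complex.I) ^ m k) := by
  refine ⟨fun n d i N X B _ hB => Pool.Agent.Y774.MD.isTempered_of_isEulerSystem hB,
    fun w N B hB κ _ P hP => ?_⟩
  have he : ∀ τ, edgeAbs B w τ = eabs (Pool.Agent.Y774.MD.GP B w) τ := hB.eabs_eq
  obtain ⟨C₀, E₀, h₀⟩ := hB.isEuler
  have h₀' : ∃ D θ C E, IsEuler (Pool.Agent.Y774.MD.GP B w) D θ C E := ⟨_, _, _, _, h₀⟩
  refine ⟨?_, fun m t hc => ?_⟩
  · have h1 : ∀ᵐ τ : ℝ, ∀ k, 0 < eabs (P k) τ ∧
        Tendsto (fun σ : ℝ => ‖LQ (P k) (1 + σ + τ * Complex.I)‖) (𝓝[>] 0) (𝓝 (eabs (P k) τ)) := by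
      rw [ae_all_iff]
      intro k
      obtain ⟨D, θ, C, E, h⟩ := hP k
      filter_upwards [h.edge'] with τ hτ
      exact hτ.1
    filter_upwards [h₀.edge', h1] with τ hτ h2
    refine ⟨?_, h2⟩
    rw [he]
    refine ⟨hτ.1.1, hτ.1.2.congr' ?_⟩
    filter_upwards [self_mem_nhdsWithin] with σ hσ
    have hσ0 : (0 : ℝ) < σ := hσ
    have h3 : ((w / 2 + 1 : ℝ) : ℂ) + τ * Complex.I + σ = ((w / 2 : ℝ) : ℂ) +
        (1 + σ + τ * Complex.I) := by
      push_cast
      ring
    rw [h3, hB.LFun_eq]
    simpa using hσ0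
  · have hc' : Concentrated (Pool.Agent.Y774.MD.cmp (Pool.Agent.Y774.MD.GP B w) P m t) := by
      refine cast (congrArg Concentrated ?_) hc
      funext τ
      unfold Pool.Agent.Y774.MD.cmp
      rw [he]
    refine ⟨fun q hq hg₀ hg s hs => ?_, fun hcont => ?_, fun hg₀ hg s hs => ?_⟩
    · rw [← Pool.Agent.Y774.MD.fac_GP_finprod B w hq s]
      exact Pool.Agent.Y774.MD.factors h₀' hP hc' hq (Pool.Agent.Y774.MD.goodAt_GP hq hg₀) hg hs
    · rw [hB.continues_iff]
      exact Pool.Agent.Y774.MD.continuation h₀' hP hc' hcont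
    · rw [hB.LFun_eq hs]
      exact Pool.Agent.Y774.MD.equality h₀' hP hc'
        (fun q hq => Pool.Agent.Y774.MD.goodAt_GP hq fun v _ => hg₀ v) hg hs

end Pool.Agent.Results.MP_148101_nt.ModulusCriterion
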